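import Pool.Agent.H18.Pur.Lower

/-!
# Bit-oracle queries are phase queries between Hadamard gates
-/

namespace Pool.Agent.H18.Pur

open Matrix

variable {X Z : Type} [Fintype X] [DecidableEq X] [Fintype Z] [DecidableEq Z]

/-- The bit oracle of `f`: `|x, b, z⟩ ↦ |x, b ⊕ f x, z⟩`. -/
def bitOracle (Z : Type) [DecidableEq Z] (f : X → Bool) : Mem (X × Bool × Z) :=
  Matrix.of fun i j => if i = (j.1, xor j.2.1 (f j.1), j.2.2) then 1 else 0

/-- Hadamard gate on the target bit. -/
noncomputable def had (X Z : Type) [DecidableEq X] [DecidableEq Z] : Mem (X × Bool × Z) :=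
  Matrix.of fun i j => if i.1 = j.1 ∧ i.2.2 = j.2.2 then
    ((((√2)⁻¹ : ℝ) : ℂ) * (if i.2.1 && j.2.1 then -1 else 1)) else 0

/-- The address is read if the target bit is `1`. -/
def bitAddr (X Z : Type) : X × Bool × Z → Option X := fun i => if i.2.1 then some i.1 else none

theorem half : ((((√2)⁻¹ : ℝ) : ℂ)) * ((((√2)⁻¹ : ℝ) : ℂ)) = 1 / 2 := by
  rw [← Complex.ofReal_mul, ← mul_inv, Real.mul_self_sqrt (by norm_num)]
  norm_num

omit [Fintype X] [Fintype Z] in
theorem had_conj : (had X Z)ᴴ = had X Z := by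
  ext i j
  simp only [had, Matrix.conjTranspose_apply, Matrix.of_apply]
  by_cases h : i.1 = j.1 ∧ i.2.2 = j.2.2
  · rw [if_pos h, if_pos ⟨h.1.symm, h.2.symm⟩, Bool.and_comm]
    split_ifs <;> simp
  · rw [if_neg h, if_neg (fun h' => h ⟨h'.1.symm, h'.2.symm⟩)]
    simp

theorem sum_had (F : X × Bool × Z → ℂ) (i : X × Bool × Z) :
    ∑ k, had X Z i k * F k = ∑ c : Bool,
      ((((√2)⁻¹ : ℝ) : ℂ) * (if i.2.1 && c then -1 else 1)) * F (i.1, c, i.2.2) := by
  rw [Fintype.sum_prod_type, Finset.sum_eq_single i.1]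
  · rw [Fintype.sum_prod_type]
    refine Finset.sum_congr rfl fun c _ => ?_
    rw [Finset.sum_eq_single i.2.2]
    · simp [had]
    · intro z _ hz
      simp [had, hz.symm]
    · simp
  · intro x _ hx
    refine Finset.sum_eq_zero fun k _ => ?_
    simp [had, hx.symm]
  · simp

theorem had_phase_had (f : X → Bool) :
    had X Z * (phase (bitAddr X Z) f * had X Z) = bitOracle Z f := by
  ext i j
  rw [Matrix.mul_apply, sum_had]
  simp only [phase, Matrix.diagonal_mul, bitAddr, had, Matrix.of_apply, bitOracle,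
    Fintype.sum_bool]
  obtain ⟨x, b, z⟩ := i
  obtain ⟨x', b', z'⟩ := j
  simp only [Prod.mk.injEq]
  by_cases h : x = x' ∧ z = z'
  · obtain ⟨rfl, rfl⟩ := h
    have h2 := half
    cases b <;> cases b' <;> cases hf : f x <;> simp [hf] <;> push_cast at h2 <;>
      (rw [← mul_inv] at *; norm_num at *; linear_combination 2 * h2)
  · have h3 : ¬ (x = x' ∧ b = (b' ^^ f x') ∧ z = z') := fun h' => h ⟨h'.1, h'.2.2⟩
    simp only [h, h3, if_false]
    simp

theorem had_mul_self : had X Z * had X Z = 1 := by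
  have h := had_phase_had (Z := Z) (fun _ : X => false)
  have e1 : phase (bitAddr X Z) (fun _ : X => false) = 1 := by
    rw [phase, ← Matrix.diagonal_one]
    congr 1
    funext s
    cases bitAddr X Z s <;> simp
  have e2 : bitOracle Z (fun _ : X => false) = 1 := by
    ext i j
    simp [bitOracle, Matrix.one_apply]
  rw [e1, e2, Matrix.one_mul] at h
  exact h

omit [DecidableEq X] [DecidableEq Z] in
theorem addressed_bitAddr : 2 * addressed (bitAddr X Z) = Fintype.card (X × Bool × Z) := by
  have : (Finset.univ.filter fun s : X × Bool × Z => (bitAddr X Z s).isSome) =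
      (Finset.univ : Finset X) ×ˢ (({true} : Finset Bool) ×ˢ (Finset.univ : Finset Z)) := by
    ext ⟨x, b, z⟩
    cases b <;> simp [bitAddr]
  rw [addressed, this]
  simp only [Finset.card_product, Finset.card_univ, Finset.card_singleton, Fintype.card_prod,
    Fintype.card_bool]
  ring

end Pool.Agent.H18.Pur
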