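import Mathlib

/-!
# Hybrid machines: a classical computer that controls a quantum memory

A classical computer with unbounded memory controls a quantum memory with basis states `n`.
The program is an adaptive tree (the classical history is the path in the tree).  At every node
it may stop, ask a classical query, ask a quantum query, or apply an arbitrary quantum instrument
to the memory and branch on its classical outcome.
-/

namespace Pool.Agent.H18.Pur

open Matrix
open scoped ComplexOrder

/-- Operators on the quantum memory. -/
abbrev Mem (n : Type) : Type := Matrix n n ℂ

section

variable {X n : Type} [Fintype n] [DecidableEq n]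

/-- Phase query with address map `addr`: the basis state `s` gets the phase `(-1) ^ f x` if
`addr s = some x` and is left alone if `addr s = none`. -/
def phase (addr : n → Option X) (f : X → Bool) : Mem n :=
  Matrix.diagonal fun s => match addr s with
    | some x => if f x then -1 else 1
    | none => 1

/-- The number of memory basis states that carry an address. -/
def addressed (addr : n → Option X) : ℕ := (Finset.univ.filter fun s => (addr s).isSome).card

/-- Adaptive programs with a quantum memory:
* `answer a` : stop and answer `a`;
* `query x next` : ask the classical query `x` (the quantum memory is untouched);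
* `qquery addr next` : ask one quantum query with the address map `addr`;
* `op m r A next` : apply the quantum instrument with `m` classical outcomes, outcome `o` having
  the Kraus operators `A o 0, …, A o (r - 1)`, and continue according to the outcome (unitaries,
  channels, measurements, resets and classical coins are special cases). -/
inductive Prog (X n : Type) : Type
  | answer (a : Bool) : Prog X n
  | query (x : X) (next : Bool → Prog X n) : Prog X n
  | qquery (addr : n → Option X) (next : Prog X n) : Prog X n
  | op (m r : ℕ) (A : Fin m → Fin r → Mem n) (next : Fin m → Prog X n) : Prog X n

/-- All instruments of the program are trace preserving (sum over all outcomes). -/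
def Prog.Valid : Prog X n → Prop
  | .answer _ => True
  | .query _ next => ∀ b, (next b).Valid
  | .qquery _ next => next.Valid
  | .op _ _ A next => (∑ o, ∑ i, (A o i)ᴴ * A o i = 1) ∧ ∀ o, (next o).Valid

/-- The probability of the answer `true` when the oracle is `f` and the quantum memory is in the
state `ρ` (for unnormalised `ρ`: the probability weighted with the trace of `ρ`). -/
noncomputable def Prog.accept (f : X → Bool) : Prog X n → Mem n → ℝ
  | .answer a, ρ => if a then ρ.trace.re else 0
  | .query x next, ρ => (next (f x)).accept f ρ
  | .qquery addr next, ρ => next.accept f (phase addr f * ρ * (phase addr f)ᴴ)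
  | .op _ _ A next, ρ => ∑ o, (next o).accept f (∑ i, A o i * ρ * (A o i)ᴴ)

/-- `P.Uses c q`: along every path at most `c` classical and at most `q` quantum queries. -/
def Prog.Uses : Prog X n → ℕ → ℕ → Prop
  | .answer _, _, _ => True
  | .query _ next, c, q => ∃ c', c' + 1 ≤ c ∧ ∀ b, (next b).Uses c' q
  | .qquery _ next, c, q => ∃ q', q' + 1 ≤ q ∧ next.Uses c q'
  | .op _ _ _ next, c, q => ∀ o, (next o).Uses c q

/-- `P.PurityLE κ f ρ`: run the program on the oracle `f` from the memory state `ρ`; whenever it
asks a quantum query, the unnormalised state `σ` of the memory, conditioned on the classical
history, satisfies `A • σ ≤ (κ * tr σ) • 1`, where `A` is the number of basis states that carry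
an address in this query (`A ≤ |n|`).  In words: the largest eigenvalue of the conditional state
is at most `κ / A`. -/
def Prog.PurityLE (κ : ℝ) (f : X → Bool) : Prog X n → Mem n → Prop
  | .answer _, _ => True
  | .query x next, ρ => (next (f x)).PurityLE κ f ρ
  | .qquery addr next, ρ =>
      (((κ * ρ.trace.re : ℝ) : ℂ) • (1 : Mem n) - ((addressed addr : ℝ) : ℂ) • ρ).PosSemidef ∧
        next.PurityLE κ f (phase addr f * ρ * (phase addr f)ᴴ)
  | .op _ _ A next, ρ => ∀ o, (next o).PurityLE κ f (∑ i, A o i * ρ * (A o i)ᴴ)

/-- All instruments of the program are unital quantum channels (without classical outcome). -/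
def Prog.Unital : Prog X n → Prop
  | .answer _ => True
  | .query _ next => ∀ b, (next b).Unital
  | .qquery _ next => next.Unital
  | .op m _ A next => m = 1 ∧ (∀ o, ∑ i, A o i * (A o i)ᴴ = 1) ∧ ∀ o, (next o).Unital

end

/-- `f` with its values on the block `B` flipped. -/
def flipOn {X : Type} [DecidableEq X] (f : X → Bool) (B : Finset X) : X → Bool :=
  fun x => xor (f x) (decide (x ∈ B))

end Pool.Agent.H18.Pur
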