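import Pool.Agent.H18.Pur.Defs
import Pool.Agent.H18.Clean.Lin

/-!
# Lower bound: the speed-up is limited by the purity of the memory
-/

set_option linter.unusedSectionVars false

namespace Pool.Agent.H18.Pur

open Matrix
open Pool.Agent.H18.Clean (trace_mul_re_nonneg step_le step_le')
open scoped ComplexOrder MatrixOrder

variable {X : Type} [DecidableEq X] {n : Type} [Fintype n] [DecidableEq n]

/-- one-step inequality without normalisation -/
theorem step_le_gen {Q ρ E : Matrix n n ℂ}
    (hQ : Qᴴ = Q) (hQ2 : Q * Q = Q) (hρ : ρ.PosSemidef)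
    (hE : E.PosSemidef) (hE1 : (1 - E).PosSemidef) :
    |((E * ((1 - (2 : ℂ) • Q) * ρ * (1 - (2 : ℂ) • Q))).trace).re - ((E * ρ).trace).re| ≤
      2 * (√(ρ.trace.re) * √(((Q * ρ).trace).re)) := by
  have htr : 0 ≤ ρ.trace := hρ.trace_nonneg
  have him : ρ.trace.im = 0 := (Complex.le_def.1 htr).2.symm
  have hre : 0 ≤ ρ.trace.re := (Complex.le_def.1 htr).1
  rcases hre.lt_or_eq with h0 | h0
  · set τ : ℝ := ρ.trace.re with hτ
    have hτc : ρ.trace = (τ : ℂ) := Complex.ext (by simp [hτ]) (by simp [him])
    have hτ0 : ((τ : ℝ) : ℂ) ≠ 0 := by exact_mod_cast h0.ne'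
    set σ : Matrix n n ℂ := (((τ⁻¹ : ℝ)) : ℂ) • ρ with hσ
    have hρσ : ρ = ((τ : ℝ) : ℂ) • σ := by
      rw [hσ, smul_smul, ← Complex.ofReal_mul, mul_inv_cancel₀ h0.ne']
      simp
    have hσp : σ.PosSemidef := hρ.smul (by exact_mod_cast (inv_pos.2 h0).le)
    have hσt : σ.trace = 1 := by
      rw [hσ, Matrix.trace_smul, hτc, smul_eq_mul, ← Complex.ofReal_mul, inv_mul_cancel₀ h0.ne']
      simp
    have key := step_le' hQ hQ2 hσp hσt hE hE1
    have e1 : ((E * ((1 - (2 : ℂ) • Q) * ρ * (1 - (2 : ℂ) • Q))).trace).re =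
        τ * ((E * ((1 - (2 : ℂ) • Q) * σ * (1 - (2 : ℂ) • Q))).trace).re := by
      rw [hρσ, Matrix.mul_smul, Matrix.smul_mul, Matrix.mul_smul, Matrix.trace_smul, smul_eq_mul,
        Complex.re_ofReal_mul]
    have e2 : ((E * ρ).trace).re = τ * ((E * σ).trace).re := by
      rw [hρσ, Matrix.mul_smul, Matrix.trace_smul, smul_eq_mul, Complex.re_ofReal_mul]
    have e3 : ((Q * ρ).trace).re = τ * ((Q * σ).trace).re := by
      rw [hρσ, Matrix.mul_smul, Matrix.trace_smul, smul_eq_mul, Complex.re_ofReal_mul]
    rw [e1, e2, e3, ← mul_sub, abs_mul, abs_of_pos h0, Real.sqrt_mul h0.le]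
    have e4 : √τ * (√τ * √((Q * σ).trace.re)) = τ * √((Q * σ).trace.re) := by
      rw [← mul_assoc, Real.mul_self_sqrt h0.le]
    rw [e4]
    calc τ * |((E * ((1 - (2 : ℂ) • Q) * σ * (1 - (2 : ℂ) • Q))).trace).re -
          ((E * σ).trace).re| ≤ τ * (2 * √((Q * σ).trace.re)) :=
          mul_le_mul_of_nonneg_left key h0.le
      _ = 2 * (τ * √((Q * σ).trace.re)) := by ring
  · -- trace zero means `ρ = 0`
    have hz : ρ = 0 := by
      have : ρ.trace = 0 := Complex.ext (by simpa using h0.symm) (by simpa using him)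
      obtain ⟨C, hC⟩ := CStarAlgebra.nonneg_iff_eq_star_mul_self.mp hρ.nonneg
      rw [Matrix.star_eq_conjTranspose] at hC
      rw [hC] at this ⊢
      rw [(Matrix.trace_conjTranspose_mul_self_eq_zero_iff).1 this]
      simp
    rw [hz]
    simp

/-- the projector onto the basis states whose address lies in `B` -/
def hit (addr : n → Option X) (B : Finset X) : Mem n :=
  Matrix.diagonal fun s => match addr s with
    | some x => if x ∈ B then 1 else 0
    | none => 0

theorem hit_conj (addr : n → Option X) (B : Finset X) : (hit addr B)ᴴ = hit addr B := by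
  rw [hit, Matrix.diagonal_conjTranspose]
  congr 1
  funext s
  simp only [Pi.star_apply]
  cases addr s with
  | none => simp
  | some x => by_cases h : x ∈ B <;> simp [h]

theorem hit_mul_self (addr : n → Option X) (B : Finset X) :
    hit addr B * hit addr B = hit addr B := by
  rw [hit, Matrix.diagonal_mul_diagonal]
  congr 1
  funext s
  cases addr s with
  | none => simp
  | some x => by_cases h : x ∈ B <;> simp [h]

theorem phase_conj (addr : n → Option X) (f : X → Bool) : (phase addr f)ᴴ = phase addr f := by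
  rw [phase, Matrix.diagonal_conjTranspose]
  congr 1
  funext s
  simp only [Pi.star_apply]
  cases addr s with
  | none => simp
  | some x => cases h : f x <;> simp [h]

theorem phase_mul_self (addr : n → Option X) (f : X → Bool) :
    phase addr f * phase addr f = 1 := by
  rw [phase, Matrix.diagonal_mul_diagonal, ← Matrix.diagonal_one]
  congr 1
  funext s
  cases addr s with
  | none => simp
  | some x => cases h : f x <;> simp [h]

theorem phase_flip (addr : n → Option X) (f : X → Bool) (B : Finset X) :
    phase addr (flipOn f B) = (1 - (2 : ℂ) • hit addr B) * phase addr f := by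
  have h1 : (1 - (2 : ℂ) • hit addr B) = Matrix.diagonal (fun s => match addr s with
      | some x => if x ∈ B then (-1 : ℂ) else 1
      | none => 1) := by
    rw [hit, ← Matrix.diagonal_one, ← Matrix.diagonal_smul, Matrix.diagonal_sub]
    congr 1
    funext s
    simp only [Pi.smul_apply]
    cases addr s with
    | none => simp
    | some x => by_cases h : x ∈ B <;> simp [h]; norm_num
  rw [h1, phase, phase, Matrix.diagonal_mul_diagonal]
  congr 1
  funext s
  cases addr s with
  | none => simp
  | some x => by_cases h : x ∈ B <;> cases h' : f x <;> simp [flipOn, h, h']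

theorem hit_posSemidef (addr : n → Option X) (B : Finset X) : (hit addr B).PosSemidef := by
  have := Matrix.posSemidef_conjTranspose_mul_self (hit addr B)
  rwa [hit_conj, hit_mul_self] at this

theorem one_sub_hit_posSemidef (addr : n → Option X) (B : Finset X) :
    (1 - hit addr B).PosSemidef := by
  have := Matrix.posSemidef_conjTranspose_mul_self (1 - hit addr B)
  rw [Matrix.conjTranspose_sub, hit_conj, Matrix.conjTranspose_one] at this
  have h : (1 - hit addr B) * (1 - hit addr B) = 1 - hit addr B := by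
    simp only [Matrix.sub_mul, Matrix.mul_sub, hit_mul_self, Matrix.one_mul, Matrix.mul_one]
    simp
  rwa [h] at this

theorem sum_hit {ι : Type} [Fintype ι] (addr : n → Option X) (B : ι → Finset X)
    (hB : Pairwise fun i j => Disjoint (B i) (B j)) :
    ∑ i, hit addr (B i) = hit addr (Finset.univ.biUnion B) := by
  classical
  ext s t
  rw [Matrix.sum_apply]
  simp only [hit, Matrix.diagonal_apply]
  by_cases hst : s = t
  · subst hst
    simp only [if_true]
    cases addr s with
    | none => simp
    | some x =>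
      simp only
      by_cases h : x ∈ Finset.univ.biUnion B
      · rw [if_pos h]
        obtain ⟨k, -, hk⟩ := Finset.mem_biUnion.1 h
        rw [Finset.sum_eq_single k]
        · rw [if_pos hk]
        · intro l _ hl
          rw [if_neg]
          intro hjl
          exact Finset.disjoint_left.1 (hB hl) hjl hk
        · simp
      · rw [if_neg h]
        apply Finset.sum_eq_zero
        intro k _
        rw [if_neg]
        intro hk
        exact h (Finset.mem_biUnion.2 ⟨k, Finset.mem_univ _, hk⟩)
  · simp [hst]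

/-- The effect of a program: `accept f P ρ = tr (eff f P ρ)`. -/
noncomputable def eff (f : X → Bool) : Prog X n → Mem n
  | .answer a => if a then 1 else 0
  | .query x next => eff f (next (f x))
  | .qquery addr next => (phase addr f)ᴴ * eff f next * phase addr f
  | .op _ _ A next => ∑ o, ∑ i, (A o i)ᴴ * eff f (next o) * A o i

theorem accept_eq (f : X → Bool) (P : Prog X n) (ρ : Mem n) :
    P.accept f ρ = ((eff f P * ρ).trace).re := by
  induction P generalizing ρ with
  | answer a => cases a <;> simp [Prog.accept, eff]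
  | query x next ih => exact ih (f x) ρ
  | qquery addr next ih =>
    simp only [Prog.accept, eff]
    rw [ih]
    have e1 : eff f next * (phase addr f * ρ * (phase addr f)ᴴ) =
        (eff f next * phase addr f * ρ) * (phase addr f)ᴴ := by simp only [Matrix.mul_assoc]
    rw [e1, Matrix.trace_mul_comm]
    simp only [Matrix.mul_assoc]
  | op m r A next ih =>
    simp only [Prog.accept, eff]
    rw [Matrix.sum_mul, Matrix.trace_sum, Complex.re_sum]
    refine Finset.sum_congr rfl fun o _ => ?_
    rw [ih, Matrix.mul_sum, Matrix.sum_mul, Matrix.trace_sum, Matrix.trace_sum]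
    congr 1
    refine Finset.sum_congr rfl fun i _ => ?_
    have e1 : eff f (next o) * (A o i * ρ * (A o i)ᴴ) =
        (eff f (next o) * A o i * ρ) * (A o i)ᴴ := by simp only [Matrix.mul_assoc]
    rw [e1, Matrix.trace_mul_comm]
    simp only [Matrix.mul_assoc]

theorem eff_mem (f : X → Bool) (P : Prog X n) (hP : P.Valid) :
    (eff f P).PosSemidef ∧ (1 - eff f P).PosSemidef := by
  induction P with
  | answer a =>
    cases a
    · simp [eff, Matrix.PosSemidef.one, Matrix.PosSemidef.zero]
    · simp [eff, Matrix.PosSemidef.one, Matrix.PosSemidef.zero]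
  | query x next ih => exact ih (f x) (hP (f x))
  | qquery addr next ih =>
    obtain ⟨h1, h2⟩ := ih hP
    refine ⟨h1.conjTranspose_mul_mul_same _, ?_⟩
    have h := h2.conjTranspose_mul_mul_same (phase addr f)
    rw [Matrix.mul_sub, Matrix.sub_mul, Matrix.mul_one, phase_conj, phase_mul_self] at h
    simp only [eff]
    rw [phase_conj]
    exact h
  | op m r A next ih =>
    obtain ⟨htp, hn⟩ := hP
    refine ⟨Matrix.posSemidef_sum _ fun o _ => Matrix.posSemidef_sum _ fun i _ =>
      (ih o (hn o)).1.conjTranspose_mul_mul_same _, ?_⟩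
    have : 1 - eff f (Prog.op m r A next) =
        ∑ o, ∑ i, (A o i)ᴴ * (1 - eff f (next o)) * A o i := by
      simp only [eff, Matrix.mul_sub, Matrix.sub_mul, Finset.sum_sub_distrib, Matrix.mul_one]
      rw [htp]
    rw [this]
    exact Matrix.posSemidef_sum _ fun o _ => Matrix.posSemidef_sum _ fun i _ =>
      (ih o (hn o)).2.conjTranspose_mul_mul_same _

theorem accept_bounds (f : X → Bool) (P : Prog X n) (hP : P.Valid) {ρ : Mem n}
    (hρ : ρ.PosSemidef) : 0 ≤ P.accept f ρ ∧ P.accept f ρ ≤ ρ.trace.re := by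
  obtain ⟨h1, h2⟩ := eff_mem f P hP
  rw [accept_eq]
  refine ⟨trace_mul_re_nonneg h1 hρ, ?_⟩
  have := trace_mul_re_nonneg h2 hρ
  rw [Matrix.sub_mul, Matrix.one_mul, Matrix.trace_sub, Complex.sub_re] at this
  linarith

/-- The speed-up factor. -/
noncomputable def fac (κ : ℝ) (b : ℕ) : ℝ := 2 * √(min κ b)

theorem fac_nonneg (κ : ℝ) (b : ℕ) : 0 ≤ fac κ b := by unfold fac; positivity

theorem trace_re_nonneg {σ : Mem n} (hσ : σ.PosSemidef) : 0 ≤ σ.trace.re :=
  (Complex.le_def.1 hσ.trace_nonneg).1

theorem eq_zero_of_trace {σ : Mem n} (hσ : σ.PosSemidef) (h : σ.trace.re = 0) : σ = 0 := by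
  have him : σ.trace.im = 0 := (Complex.le_def.1 hσ.trace_nonneg).2.symm
  have : σ.trace = 0 := Complex.ext (by simpa using h) (by simpa using him)
  obtain ⟨C, hC⟩ := CStarAlgebra.nonneg_iff_eq_star_mul_self.mp hσ.nonneg
  rw [Matrix.star_eq_conjTranspose] at hC
  rw [hC] at this ⊢
  rw [(Matrix.trace_conjTranspose_mul_self_eq_zero_iff).1 this]
  simp

theorem hit_trace (addr : n → Option X) (B : Finset X) :
    (hit addr B).trace.re = ((Finset.univ.filter fun s => ∃ x ∈ B, addr s = some x).card : ℝ) := by
  classical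
  rw [hit, Matrix.trace_diagonal]
  have : ∀ s, (match addr s with
    | some x => if x ∈ B then (1 : ℂ) else 0
    | none => 0) = if (∃ x ∈ B, addr s = some x) then 1 else 0 := by
    intro s
    cases h : addr s with
    | none => simp
    | some x =>
      by_cases hx : x ∈ B
      · simp [hx]
      · simp only [hx, if_false]
        rw [if_neg]
        rintro ⟨y, hy, hxy⟩
        simp only [Option.some.injEq] at hxy
        exact hx (hxy ▸ hy)
  rw [Finset.sum_congr rfl (fun s _ => this s), Finset.sum_boole]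
  simp only [Complex.natCast_re]

/-- The ranks of the block projectors add up to at most the number of addressed states. -/
theorem sum_hit_trace_le {ι : Type} [Fintype ι] (addr : n → Option X) (B : ι → Finset X)
    (hB : Pairwise fun i j => Disjoint (B i) (B j)) :
    ∑ j, (hit addr (B j)).trace.re ≤ addressed addr := by
  classical
  rw [← Complex.re_sum, ← Matrix.trace_sum, sum_hit addr B hB, hit_trace]
  rw [addressed]
  exact_mod_cast Finset.card_le_card (by
    intro s hs
    simp only [Finset.mem_filter, Finset.mem_univ, true_and] at hs ⊢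
    obtain ⟨x, _, hx⟩ := hs
    simp [hx])

theorem sum_hit_le {ι : Type} [Fintype ι] (addr : n → Option X) (B : ι → Finset X)
    (hB : Pairwise fun i j => Disjoint (B i) (B j)) {σ : Mem n} (hσ : σ.PosSemidef) :
    ∑ j, ((hit addr (B j) * σ).trace).re ≤ σ.trace.re := by
  rw [← Complex.re_sum, ← Matrix.trace_sum, ← Matrix.sum_mul, sum_hit addr B hB]
  have h := trace_mul_re_nonneg (one_sub_hit_posSemidef addr (Finset.univ.biUnion B)) hσ
  rw [Matrix.sub_mul, Matrix.one_mul, Matrix.trace_sub, Complex.sub_re] at h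
  linarith

/-- The disturbance of one query, summed over the blocks. -/
theorem sum_step_le {ι : Type} [Fintype ι] (addr : n → Option X) (B : ι → Finset X)
    (hB : Pairwise fun i j => Disjoint (B i) (B j)) {σ : Mem n} (hσ : σ.PosSemidef) {κ : ℝ}
    (hκ : (((κ * σ.trace.re : ℝ) : ℂ) • (1 : Mem n) -
      ((addressed addr : ℝ) : ℂ) • σ).PosSemidef)
    (E : ι → Mem n) (hE : ∀ j, (E j).PosSemidef) (hE1 : ∀ j, (1 - E j).PosSemidef) :
    ∑ j, |((E j * ((1 - (2 : ℂ) • hit addr (B j)) * σ * (1 - (2 : ℂ) • hit addr (B j)))).trace).re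
      - ((E j * σ).trace).re| ≤ fac κ (Fintype.card ι) * σ.trace.re := by
  classical
  have htr := trace_re_nonneg hσ
  have hq0 : ∀ j, 0 ≤ ((hit addr (B j) * σ).trace).re := fun j =>
    trace_mul_re_nonneg (hit_posSemidef _ _) hσ
  have hsum1 := sum_hit_le addr B hB hσ
  rcases htr.eq_or_lt with h0 | h0
  · have := eq_zero_of_trace hσ h0.symm
    subst this
    simp
  rcases Nat.eq_zero_or_pos (addressed addr) with hA | hA
  · -- nothing is addressed: the query does nothing
    have hhit : ∀ j, hit addr (B j) = 0 := by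
      intro j
      rw [hit, ← Matrix.diagonal_zero]
      congr 1
      funext s
      have : addr s = none := by
        rw [addressed, Finset.card_eq_zero, Finset.filter_eq_empty_iff] at hA
        simpa using hA (Finset.mem_univ s)
      simp [this]
    simp only [hhit]
    have hf := fac_nonneg κ (Fintype.card ι)
    simp
    positivity
  have hA' : (0 : ℝ) < addressed addr := by exact_mod_cast hA
  -- `κ > 0`
  have hκ0 : 0 < κ := by
    have h := trace_re_nonneg hκ
    rw [Matrix.trace_sub, Matrix.trace_smul, Matrix.trace_smul, Matrix.trace_one, smul_eq_mul,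
      smul_eq_mul, Complex.sub_re, Complex.re_ofReal_mul, Complex.re_ofReal_mul,
      Complex.natCast_re] at h
    by_contra hneg
    push Not at hneg
    have h1 : κ * σ.trace.re * (Fintype.card n : ℝ) ≤ 0 :=
      mul_nonpos_of_nonpos_of_nonneg (mul_nonpos_of_nonpos_of_nonneg hneg htr)
        (Nat.cast_nonneg _)
    have h2 : 0 < (addressed addr : ℝ) * σ.trace.re := by positivity
    linarith
  set s : ℝ := κ * σ.trace.re / addressed addr with hs
  have hs0 : 0 < s := by positivity
  have hσs : (((s : ℝ) : ℂ) • (1 : Mem n) - σ).PosSemidef := by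
    have h := hκ.smul (a := (((addressed addr : ℝ)⁻¹ : ℝ) : ℂ)) (by
      exact_mod_cast (inv_pos.2 hA').le)
    have e : (((addressed addr : ℝ)⁻¹ : ℝ) : ℂ) • (((κ * σ.trace.re : ℝ) : ℂ) • (1 : Mem n) -
        ((addressed addr : ℝ) : ℂ) • σ) = ((s : ℝ) : ℂ) • (1 : Mem n) - σ := by
      rw [smul_sub, smul_smul, smul_smul, ← Complex.ofReal_mul, ← Complex.ofReal_mul,
        inv_mul_cancel₀ hA'.ne', Complex.ofReal_one, one_smul, hs]
      congr 2
      rw [div_eq_inv_mul]
    rwa [e] at h
  have hκpart : ∑ j, |((E j * ((1 - (2 : ℂ) • hit addr (B j)) * σ *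
      (1 - (2 : ℂ) • hit addr (B j)))).trace).re - ((E j * σ).trace).re| ≤
      2 * √κ * σ.trace.re := by
    have hstep : ∀ j, |((E j * ((1 - (2 : ℂ) • hit addr (B j)) * σ *
        (1 - (2 : ℂ) • hit addr (B j)))).trace).re - ((E j * σ).trace).re| ≤
        2 * √s * (√((hit addr (B j)).trace.re) * √(((hit addr (B j) * σ).trace).re)) := by
      intro j
      refine (step_le hs0 (hit_conj _ _) (hit_mul_self _ _) hσ hσs (hE j) (hE1 j)).trans
        (le_of_eq ?_)
      rw [Real.sqrt_mul hs0.le, Real.sqrt_mul (trace_re_nonneg (hit_posSemidef _ _))]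
      ring
    refine (Finset.sum_le_sum fun j _ => hstep j).trans ?_
    rw [← Finset.mul_sum]
    have hcs : ∑ j, √((hit addr (B j)).trace.re) * √(((hit addr (B j) * σ).trace).re) ≤
        √(addressed addr) * √(σ.trace.re) := by
      refine (Real.sum_sqrt_mul_sqrt_le _
        (fun j => trace_re_nonneg (hit_posSemidef _ _)) hq0).trans ?_
      have h2 := sum_hit_trace_le addr B hB
      gcongr
    calc 2 * √s * ∑ j, √((hit addr (B j)).trace.re) * √(((hit addr (B j) * σ).trace).re)
        ≤ 2 * √s * (√(addressed addr) * √(σ.trace.re)) := by gcongr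
      _ = 2 * (√(s * addressed addr)) * √(σ.trace.re) := by
          rw [Real.sqrt_mul hs0.le]; ring
      _ = 2 * √(κ * σ.trace.re) * √(σ.trace.re) := by
          congr 3
          rw [hs]; field_simp
      _ = 2 * √κ * (√(σ.trace.re) * √(σ.trace.re)) := by
          rw [Real.sqrt_mul hκ0.le]; ring
      _ = 2 * √κ * σ.trace.re := by rw [Real.mul_self_sqrt htr]
  have hbpart : ∑ j, |((E j * ((1 - (2 : ℂ) • hit addr (B j)) * σ *
      (1 - (2 : ℂ) • hit addr (B j)))).trace).re - ((E j * σ).trace).re| ≤
      2 * √(Fintype.card ι) * σ.trace.re := by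
    have hstep : ∀ j, |((E j * ((1 - (2 : ℂ) • hit addr (B j)) * σ *
        (1 - (2 : ℂ) • hit addr (B j)))).trace).re - ((E j * σ).trace).re| ≤
        2 * √(σ.trace.re) * (√(1 : ℝ) * √(((hit addr (B j) * σ).trace).re)) := by
      intro j
      refine (step_le_gen (hit_conj _ _) (hit_mul_self _ _) hσ (hE j) (hE1 j)).trans
        (le_of_eq ?_)
      rw [Real.sqrt_one]; ring
    refine (Finset.sum_le_sum fun j _ => hstep j).trans ?_
    rw [← Finset.mul_sum]
    have hcs : ∑ j : ι, √(1 : ℝ) * √(((hit addr (B j) * σ).trace).re) ≤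
        √(Fintype.card ι) * √(σ.trace.re) := by
      refine (Real.sum_sqrt_mul_sqrt_le _ (fun _ => zero_le_one) hq0).trans ?_
      gcongr
      simp
    calc 2 * √(σ.trace.re) * ∑ j, √(1 : ℝ) * √(((hit addr (B j) * σ).trace).re)
        ≤ 2 * √(σ.trace.re) * (√(Fintype.card ι) * √(σ.trace.re)) := by gcongr
      _ = 2 * √(Fintype.card ι) * (√(σ.trace.re) * √(σ.trace.re)) := by ring
      _ = 2 * √(Fintype.card ι) * σ.trace.re := by rw [Real.mul_self_sqrt htr]
  rw [fac]
  rcases le_total κ (Fintype.card ι : ℝ) with hle | hle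
  · rw [min_eq_left hle]; exact hκpart
  · rw [min_eq_right hle]; exact hbpart

/-- The main lower bound. -/
theorem main_le (P : Prog X n) (hP : P.Valid) (c q : ℕ) (h : P.Uses c q) (f : X → Bool)
    {ι : Type} [Fintype ι] (B : ι → Finset X) (hB : Pairwise fun i j => Disjoint (B i) (B j))
    (κ : ℝ) {ρ : Mem n} (hρ : ρ.PosSemidef) (hpur : P.PurityLE κ f ρ) :
    ∑ j, |P.accept (flipOn f (B j)) ρ - P.accept f ρ| ≤
      (c + fac κ (Fintype.card ι) * q) * ρ.trace.re := by
  classical
  have htr : ∀ {σ : Mem n}, σ.PosSemidef → 0 ≤ σ.trace.re := fun hσ => trace_re_nonneg hσ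
  have hfac := fac_nonneg κ (Fintype.card ι)
  induction P generalizing c q ρ with
  | answer a =>
    simp only [Prog.accept, sub_self, abs_zero, Finset.sum_const_zero]
    have := htr hρ
    positivity
  | query x next ih =>
    obtain ⟨c', hc', hn⟩ := h
    have hc'' : (c' : ℝ) + 1 ≤ c := by exact_mod_cast hc'
    have ht := htr hρ
    have hterm : ∀ j, |(Prog.query x next).accept (flipOn f (B j)) ρ -
        (Prog.query x next).accept f ρ| ≤
        |(next (f x)).accept (flipOn f (B j)) ρ - (next (f x)).accept f ρ| +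
          (if x ∈ B j then ρ.trace.re else 0) := by
      intro j
      simp only [Prog.accept]
      by_cases hx : x ∈ B j
      · rw [if_pos hx]
        have h1 := accept_bounds (flipOn f (B j)) (next (flipOn f (B j) x)) (hP _) hρ
        have h2 := accept_bounds f (next (f x)) (hP _) hρ
        have h3 : |(next (flipOn f (B j) x)).accept (flipOn f (B j)) ρ -
            (next (f x)).accept f ρ| ≤ ρ.trace.re := by
          rw [abs_le]; constructor <;> linarith [h1.1, h1.2, h2.1, h2.2]
        have h4 := abs_nonneg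
          ((next (f x)).accept (flipOn f (B j)) ρ - (next (f x)).accept f ρ)
        linarith
      · rw [if_neg hx, add_zero]
        have : flipOn f (B j) x = f x := by simp [flipOn, hx]
        rw [this]
    have hone : ∑ j, (if x ∈ B j then ρ.trace.re else 0) ≤ ρ.trace.re := by
      by_cases hex : ∃ k, x ∈ B k
      · obtain ⟨k, hk⟩ := hex
        rw [Finset.sum_eq_single k]
        · simp [hk]
        · intro l _ hl
          rw [if_neg]
          intro hxl
          exact Finset.disjoint_left.1 (hB hl) hxl hk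
        · simp
      · push Not at hex
        simp [hex, ht]
    have hih := ih (f x) (hP _) c' q (hn (f x)) hρ hpur
    calc _ ≤ ∑ j, (|(next (f x)).accept (flipOn f (B j)) ρ - (next (f x)).accept f ρ| +
          (if x ∈ B j then ρ.trace.re else 0)) := Finset.sum_le_sum fun j _ => hterm j
      _ ≤ (c' + fac κ (Fintype.card ι) * q) * ρ.trace.re + ρ.trace.re := by
          rw [Finset.sum_add_distrib]
          linarith
      _ = ((c' + 1) + fac κ (Fintype.card ι) * q) * ρ.trace.re := by ring
      _ ≤ (c + fac κ (Fintype.card ι) * q) * ρ.trace.re := by gcongr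
  | qquery addr next ih =>
    obtain ⟨q', hq', hn⟩ := h
    obtain ⟨hpur1, hpur2⟩ := hpur
    have hq'' : (q' : ℝ) + 1 ≤ q := by exact_mod_cast hq'
    have ht := htr hρ
    set σ : Mem n := phase addr f * ρ * (phase addr f)ᴴ with hσdef
    have hσ : σ.PosSemidef := hρ.mul_mul_conjTranspose_same _
    have hσt : σ.trace = ρ.trace := by
      rw [hσdef, Matrix.trace_mul_comm, ← Matrix.mul_assoc, phase_conj, phase_mul_self,
        Matrix.one_mul]
    have hpurσ : (((κ * σ.trace.re : ℝ) : ℂ) • (1 : Mem n) -
        ((addressed addr : ℝ) : ℂ) • σ).PosSemidef := by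
      have h := hpur1.mul_mul_conjTranspose_same (phase addr f)
      rw [Matrix.mul_sub, Matrix.sub_mul, Matrix.mul_smul, Matrix.smul_mul, Matrix.mul_smul,
        Matrix.smul_mul, Matrix.mul_one, phase_conj, phase_mul_self] at h
      rw [hσt, hσdef, phase_conj]
      exact h
    have hflip : ∀ j, phase addr (flipOn f (B j)) * ρ * (phase addr (flipOn f (B j)))ᴴ =
        (1 - (2 : ℂ) • hit addr (B j)) * σ * (1 - (2 : ℂ) • hit addr (B j)) := by
      intro j
      rw [phase_flip, Matrix.conjTranspose_mul, hσdef]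
      have : (1 - (2 : ℂ) • hit addr (B j))ᴴ = 1 - (2 : ℂ) • hit addr (B j) := by
        rw [Matrix.conjTranspose_sub, Matrix.conjTranspose_smul, hit_conj]
        simp
      rw [this]
      simp only [Matrix.mul_assoc]
    have hterm : ∀ j, |(Prog.qquery addr next).accept (flipOn f (B j)) ρ -
        (Prog.qquery addr next).accept f ρ| ≤
        |((eff (flipOn f (B j)) next * ((1 - (2 : ℂ) • hit addr (B j)) * σ *
          (1 - (2 : ℂ) • hit addr (B j)))).trace).re -
          ((eff (flipOn f (B j)) next * σ).trace).re| +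
        |next.accept (flipOn f (B j)) σ - next.accept f σ| := by
      intro j
      simp only [Prog.accept]
      rw [hflip j, ← hσdef]
      have e : next.accept (flipOn f (B j))
            ((1 - (2 : ℂ) • hit addr (B j)) * σ * (1 - (2 : ℂ) • hit addr (B j))) -
          next.accept f σ =
          (next.accept (flipOn f (B j))
            ((1 - (2 : ℂ) • hit addr (B j)) * σ * (1 - (2 : ℂ) • hit addr (B j))) -
            next.accept (flipOn f (B j)) σ) +
          (next.accept (flipOn f (B j)) σ - next.accept f σ) := by ring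
      rw [e]
      refine (abs_add_le _ _).trans ?_
      rw [accept_eq (flipOn f (B j)) next
        ((1 - (2 : ℂ) • hit addr (B j)) * σ * (1 - (2 : ℂ) • hit addr (B j)))]
      rw [← accept_eq (flipOn f (B j)) next σ]
    have hih := ih hP c q' hn hσ hpur2
    have hfirst := sum_step_le addr B hB hσ hpurσ (fun j => eff (flipOn f (B j)) next)
      (fun j => (eff_mem (flipOn f (B j)) next hP).1)
      (fun j => (eff_mem (flipOn f (B j)) next hP).2)
    calc _ ≤ ∑ j, (|((eff (flipOn f (B j)) next * ((1 - (2 : ℂ) • hit addr (B j)) * σ *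
          (1 - (2 : ℂ) • hit addr (B j)))).trace).re -
          ((eff (flipOn f (B j)) next * σ).trace).re| +
          |next.accept (flipOn f (B j)) σ - next.accept f σ|) :=
          Finset.sum_le_sum fun j _ => hterm j
      _ ≤ fac κ (Fintype.card ι) * σ.trace.re +
          (c + fac κ (Fintype.card ι) * q') * σ.trace.re := by
          rw [Finset.sum_add_distrib]
          exact add_le_add hfirst hih
      _ = (c + fac κ (Fintype.card ι) * (q' + 1)) * ρ.trace.re := by
          rw [hσt]; ring
      _ ≤ (c + fac κ (Fintype.card ι) * q) * ρ.trace.re := by gcongr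
  | op m r A next ih =>
    obtain ⟨htp, hv⟩ := hP
    set ρo : Fin m → Mem n := fun o => ∑ i, A o i * ρ * (A o i)ᴴ with hρo
    have hρop : ∀ o, (ρo o).PosSemidef := fun o =>
      Matrix.posSemidef_sum _ fun i _ => hρ.mul_mul_conjTranspose_same _
    have htrs : ∑ o, (ρo o).trace.re = ρ.trace.re := by
      rw [← Complex.re_sum]
      congr 1
      have : ∀ o, (ρo o).trace = ((∑ i, (A o i)ᴴ * A o i) * ρ).trace := by
        intro o
        rw [hρo, Matrix.trace_sum, Matrix.sum_mul, Matrix.trace_sum]
        refine Finset.sum_congr rfl fun i _ => ?_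
        rw [Matrix.trace_mul_comm, Matrix.mul_assoc]
      simp only [this]
      rw [← Matrix.trace_sum, ← Matrix.sum_mul, htp, Matrix.one_mul]
    have hterm : ∀ j, |(Prog.op m r A next).accept (flipOn f (B j)) ρ -
        (Prog.op m r A next).accept f ρ| ≤
        ∑ o, |(next o).accept (flipOn f (B j)) (ρo o) - (next o).accept f (ρo o)| := by
      intro j
      simp only [Prog.accept]
      rw [← Finset.sum_sub_distrib]
      exact Finset.abs_sum_le_sum_abs _ _
    calc _ ≤ ∑ j, ∑ o, |(next o).accept (flipOn f (B j)) (ρo o) - (next o).accept f (ρo o)| :=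
          Finset.sum_le_sum fun j _ => hterm j
      _ = ∑ o, ∑ j, |(next o).accept (flipOn f (B j)) (ρo o) - (next o).accept f (ρo o)| :=
          Finset.sum_comm
      _ ≤ ∑ o, (c + fac κ (Fintype.card ι) * q) * (ρo o).trace.re :=
          Finset.sum_le_sum fun o _ => ih o (hv o) c q (h o) (hρop o) (hpur o)
      _ = (c + fac κ (Fintype.card ι) * q) * ρ.trace.re := by
          rw [← Finset.mul_sum, htrs]

omit [DecidableEq n] in
theorem star_dot_self (w : n → ℂ) : star w ⬝ᵥ w = (((∑ a, ‖w a‖ ^ 2 : ℝ)) : ℂ) := by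
  simp only [dotProduct, Pi.star_apply, Complex.ofReal_sum]
  refine Finset.sum_congr rfl fun a _ => ?_
  rw [← Complex.normSq_eq_norm_sq, Complex.star_def, ← Complex.normSq_eq_conj_mul_self]

theorem rank_one_le (w : n → ℂ) :
    (((∑ a, ‖w a‖ ^ 2 : ℝ) : ℂ) • (1 : Matrix n n ℂ) - vecMulVec w (star w)).PosSemidef := by
  set s : ℝ := ∑ a, ‖w a‖ ^ 2 with hs
  set W : Matrix n n ℂ := vecMulVec w (star w) with hW
  have hWW : W * W = ((s : ℝ) : ℂ) • W := by
    rw [hW, Matrix.vecMulVec_mul_vecMulVec, star_dot_self, ← hs]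
    ext i j
    simp [vecMulVec_apply]
    ring
  have hWh : Wᴴ = W := by rw [hW, Matrix.conjTranspose_vecMulVec, star_star]
  have hs0 : 0 ≤ s := Finset.sum_nonneg fun a _ => by positivity
  rcases hs0.eq_or_lt with h0 | h0
  · have hw : w = 0 := by
      funext a
      have := (Finset.sum_eq_zero_iff_of_nonneg (fun a _ => by positivity)).1 h0.symm a
        (Finset.mem_univ a)
      simpa using this
    rw [hW, hw, ← h0]
    simpa using (Matrix.PosSemidef.zero : (0 : Matrix n n ℂ).PosSemidef)
  · set M : Matrix n n ℂ := ((s : ℝ) : ℂ) • 1 - W with hM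
    have hMh : Mᴴ = M := by
      rw [hM, Matrix.conjTranspose_sub, Matrix.conjTranspose_smul, hWh]
      simp
    have hMM : Mᴴ * M = ((s : ℝ) : ℂ) • M := by
      rw [hMh, hM]
      simp only [Matrix.sub_mul, Matrix.mul_sub, Matrix.smul_mul, Matrix.mul_smul, Matrix.one_mul,
        Matrix.mul_one, hWW, smul_sub]
      abel
    have e : M = (((s⁻¹ : ℝ)) : ℂ) • (Mᴴ * M) := by
      rw [hMM, smul_smul, ← Complex.ofReal_mul, inv_mul_cancel₀ h0.ne']
      simp
    rw [e]
    refine (Matrix.posSemidef_conjTranspose_mul_self M).smul ?_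
    exact_mod_cast (inv_pos.2 h0).le

theorem le_trace_smul_one {ρ : Matrix n n ℂ} (hρ : ρ.PosSemidef) :
    (((ρ.trace.re : ℝ) : ℂ) • (1 : Matrix n n ℂ) - ρ).PosSemidef := by
  obtain ⟨C, hC⟩ := CStarAlgebra.nonneg_iff_eq_star_mul_self.mp hρ.nonneg
  rw [Matrix.star_eq_conjTranspose] at hC
  have h1 : ρ = ∑ i, vecMulVec (star (C i)) (star (star (C i))) := by
    rw [hC]
    ext a b
    rw [Matrix.sum_apply, Matrix.mul_apply]
    refine Finset.sum_congr rfl fun i _ => ?_
    simp [vecMulVec_apply]
  have h2 : ρ.trace.re = ∑ i, ∑ a, ‖(star (C i)) a‖ ^ 2 := by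
    rw [h1, Matrix.trace_sum, Complex.re_sum]
    refine Finset.sum_congr rfl fun i _ => ?_
    rw [Matrix.trace_vecMulVec, dotProduct_comm, star_dot_self, Complex.ofReal_re]
  have h3 : ((ρ.trace.re : ℝ) : ℂ) • (1 : Matrix n n ℂ) - ρ =
      ∑ i, ((((∑ a, ‖(star (C i)) a‖ ^ 2 : ℝ)) : ℂ) • (1 : Matrix n n ℂ) -
        vecMulVec (star (C i)) (star (star (C i)))) := by
    rw [Finset.sum_sub_distrib, ← Finset.sum_smul, ← Complex.ofReal_sum, ← h2, ← h1]
  rw [h3]
  exact Matrix.posSemidef_sum _ fun i _ => rank_one_le _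

/-- Every program has purity at most the dimension of its memory. -/
theorem purity_le_card (P : Prog X n) (f : X → Bool) {ρ : Mem n} (hρ : ρ.PosSemidef) :
    P.PurityLE (Fintype.card n) f ρ := by
  induction P generalizing ρ with
  | answer a => trivial
  | query x next ih => exact ih (f x) hρ
  | qquery addr next ih =>
    refine ⟨?_, ih (hρ.mul_mul_conjTranspose_same _)⟩
    have hA : addressed addr ≤ Fintype.card n := by
      rw [addressed]; exact Finset.card_le_univ _
    have hA' : (addressed addr : ℝ) ≤ Fintype.card n := by exact_mod_cast hA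
    have htr := trace_re_nonneg hρ
    have h1 := (le_trace_smul_one hρ).smul (a := ((addressed addr : ℝ) : ℂ)) (by
      exact_mod_cast (Nat.cast_nonneg (addressed addr) : (0 : ℝ) ≤ (addressed addr : ℝ)))
    have h2 : ((((((Fintype.card n : ℝ) - addressed addr) * ρ.trace.re : ℝ)) : ℂ) •
        (1 : Mem n)).PosSemidef := by
      refine Matrix.PosSemidef.one.smul ?_
      have : (0 : ℝ) ≤ ((Fintype.card n : ℝ) - addressed addr) * ρ.trace.re :=
        mul_nonneg (by linarith) htr
      exact_mod_cast this
    have e : (((((Fintype.card n : ℝ)) * ρ.trace.re : ℝ) : ℂ) • (1 : Mem n) -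
        ((addressed addr : ℝ) : ℂ) • ρ) = ((addressed addr : ℝ) : ℂ) •
        (((ρ.trace.re : ℝ) : ℂ) • (1 : Mem n) - ρ) +
        (((((Fintype.card n : ℝ) - addressed addr) * ρ.trace.re : ℝ)) : ℂ) • (1 : Mem n) := by
      rw [smul_sub, smul_smul]
      push_cast
      module
    rw [e]
    exact h1.add h2
  | op m r A next ih =>
    intro o
    exact ih o (Matrix.posSemidef_sum _ fun i _ => hρ.mul_mul_conjTranspose_same _)

/-- Unital channels do not increase the purity. -/
theorem purity_of_unital (P : Prog X n) (hP : P.Valid) (hU : P.Unital) (f : X → Bool) (κ : ℝ)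
    {ρ : Mem n} (hρ : ρ.PosSemidef)
    (hκ : (((κ * ρ.trace.re : ℝ) : ℂ) • (1 : Mem n) -
      ((Fintype.card n : ℝ) : ℂ) • ρ).PosSemidef) :
    P.PurityLE κ f ρ := by
  induction P generalizing ρ with
  | answer a => trivial
  | query x next ih => exact ih (f x) (hP _) (hU _) hρ hκ
  | qquery addr next ih =>
    have hpos : (phase addr f * ρ * (phase addr f)ᴴ).PosSemidef :=
      hρ.mul_mul_conjTranspose_same _
    have htr : (phase addr f * ρ * (phase addr f)ᴴ).trace = ρ.trace := by
      rw [Matrix.trace_mul_comm, ← Matrix.mul_assoc, phase_conj, phase_mul_self, Matrix.one_mul]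
    refine ⟨?_, ih hP hU hpos ?_⟩
    · have hA : (addressed addr : ℝ) ≤ Fintype.card n := by
        exact_mod_cast (by rw [addressed]; exact Finset.card_le_univ _ :
          addressed addr ≤ Fintype.card n)
      have h2 : ((((((Fintype.card n : ℝ) - addressed addr) : ℝ)) : ℂ) • ρ).PosSemidef := by
        refine hρ.smul ?_
        have : (0 : ℝ) ≤ ((Fintype.card n : ℝ) - addressed addr) := by linarith
        exact_mod_cast this
      have e : (((κ * ρ.trace.re : ℝ) : ℂ) • (1 : Mem n) - ((addressed addr : ℝ) : ℂ) • ρ) =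
          (((κ * ρ.trace.re : ℝ) : ℂ) • (1 : Mem n) - ((Fintype.card n : ℝ) : ℂ) • ρ) +
          (((((Fintype.card n : ℝ) - addressed addr) : ℝ)) : ℂ) • ρ := by
        push_cast
        module
      rw [e]
      exact hκ.add h2
    · have h := hκ.mul_mul_conjTranspose_same (phase addr f)
      rw [Matrix.mul_sub, Matrix.sub_mul, Matrix.mul_smul, Matrix.smul_mul, Matrix.mul_smul,
        Matrix.smul_mul, Matrix.mul_one] at h
      have e : phase addr f * (phase addr f)ᴴ = 1 := by rw [phase_conj, phase_mul_self]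
      rw [e] at h
      rw [htr]
      exact h
  | op m r A next ih =>
    obtain ⟨hm, hun, hnext⟩ := hU
    obtain ⟨htp, hv⟩ := hP
    subst hm
    intro o
    have ho : o = 0 := Subsingleton.elim _ _
    subst ho
    have hpos : (∑ i, A 0 i * ρ * (A 0 i)ᴴ).PosSemidef :=
      Matrix.posSemidef_sum _ fun i _ => hρ.mul_mul_conjTranspose_same _
    have htp' : ∑ i, (A 0 i)ᴴ * A 0 i = 1 := by simpa using htp
    have htr : (∑ i, A 0 i * ρ * (A 0 i)ᴴ).trace = ρ.trace := by
      have : ∀ i, (A 0 i * ρ * (A 0 i)ᴴ).trace = (((A 0 i)ᴴ * A 0 i) * ρ).trace := by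
        intro i
        rw [Matrix.trace_mul_comm, Matrix.mul_assoc]
      rw [Matrix.trace_sum]
      simp only [this]
      rw [← Matrix.trace_sum, ← Matrix.sum_mul, htp', Matrix.one_mul]
    refine ih 0 (hv 0) (hnext 0) hpos ?_
    have h := Matrix.posSemidef_sum Finset.univ fun i (_ : i ∈ Finset.univ) =>
      hκ.mul_mul_conjTranspose_same (A 0 i)
    have e : ∑ i, A 0 i * (((κ * ρ.trace.re : ℝ) : ℂ) • (1 : Mem n) -
        ((Fintype.card n : ℝ) : ℂ) • ρ) * (A 0 i)ᴴ =
        ((κ * ρ.trace.re : ℝ) : ℂ) • (1 : Mem n) -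
        ((Fintype.card n : ℝ) : ℂ) • ∑ i, A 0 i * ρ * (A 0 i)ᴴ := by
      simp only [Matrix.mul_sub, Matrix.sub_mul, Matrix.mul_smul, Matrix.smul_mul, Matrix.mul_one,
        Finset.sum_sub_distrib, ← Finset.smul_sum]
      rw [hun 0]
    rw [e] at h
    rw [htr]
    exact h

end Pool.Agent.H18.Pur
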