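import Pool.Agent.H18.Pur.Upper

/-!
# The search program and its analysis
-/

set_option linter.unusedSectionVars false

namespace Pool.Agent.H18.Pur

open Matrix
open Pool.Agent.H18.Clean (amp cnt ang sum_amp_sq succP avgP succP_zero succP_nonneg succP_le_one
  avgP_nonneg avgP_le_one round_ge)
open scoped ComplexOrder MatrixOrder Kronecker

variable {L K w : ℕ} [NeZero L] [NeZero K] [NeZero w]

/-- programs that search `L` blocks of size `K` -/
abbrev SProg (L K w : ℕ) : Type := Prog (Fin L × Fin K) (Fin K × Fin w)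

/-- a fair classical coin with `m` outcomes -/
noncomputable def coin (m : ℕ) (next : Fin m → SProg L K w) : SProg L K w :=
  .op m 1 (fun _ _ => (((√(m : ℝ))⁻¹ : ℝ) : ℂ) • 1) next

theorem coin_state (m : ℕ) (ρ : Mem (Fin K × Fin w)) :
    ((((√(m : ℝ))⁻¹ : ℝ) : ℂ) • (1 : Mem (Fin K × Fin w))) * ρ *
      ((((√(m : ℝ))⁻¹ : ℝ) : ℂ) • (1 : Mem (Fin K × Fin w)))ᴴ = (((m : ℝ)⁻¹ : ℝ) : ℂ) • ρ := by
  rw [Matrix.conjTranspose_smul, Matrix.conjTranspose_one, Complex.star_def, Complex.conj_ofReal,
    Matrix.smul_mul, Matrix.one_mul, Matrix.mul_smul, Matrix.mul_one, smul_smul,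
    ← Complex.ofReal_mul, ← mul_inv, Real.mul_self_sqrt (Nat.cast_nonneg m)]

theorem coin_accept (m : ℕ) (next : Fin m → SProg L K w) (f : Fin L × Fin K → Bool)
    (v : Fin m → ℝ) (hv : ∀ o ρ, (next o).accept f ρ = ρ.trace.re * v o)
    (ρ : Mem (Fin K × Fin w)) :
    (coin m next).accept f ρ = ρ.trace.re * ((m : ℝ)⁻¹ * ∑ o, v o) := by
  simp only [coin, Prog.accept, Finset.univ_unique, Finset.sum_singleton]
  have : ∀ o, (next o).accept f (((((√(m : ℝ))⁻¹ : ℝ) : ℂ) • (1 : Mem (Fin K × Fin w))) * ρ *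
      ((((√(m : ℝ))⁻¹ : ℝ) : ℂ) • (1 : Mem (Fin K × Fin w)))ᴴ) =
      ρ.trace.re * (m : ℝ)⁻¹ * v o := by
    intro o
    rw [coin_state, hv, Matrix.trace_smul, smul_eq_mul, Complex.re_ofReal_mul]
    ring
  rw [Finset.sum_congr rfl (fun o _ => this o), ← Finset.mul_sum]
  ring

/-- reset, `t` Grover iterations in block `b`, measurement and classical check -/
noncomputable def blockTry (t : ℕ) (next : SProg L K w) (b : Fin L) : SProg L K w :=
  .op 1 (rr w K) (fun _ i => rsF w K i) fun _ => iter w b (meas w b next) t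

/-- Grover in a random block, then check the measured address classically. -/
noncomputable def attempt (t : ℕ) (next : SProg L K w) : SProg L K w :=
  coin L (blockTry t next)

theorem blockTry_accept (t : ℕ) (next : SProg L K w) (b : Fin L) (f : Fin L × Fin K → Bool)
    (v : ℝ) (hv : ∀ ρ, next.accept f ρ = ρ.trace.re * v) (ρ : Mem (Fin K × Fin w)) :
    (blockTry t next b).accept f ρ = ρ.trace.re *
      (Real.sin ((2 * t + 1) * ang (fun y => f (b, y))) ^ 2 +
        (1 - Real.sin ((2 * t + 1) * ang (fun y => f (b, y))) ^ 2) * v) := by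
  have hw : (w : ℂ) ≠ 0 := by exact_mod_cast NeZero.ne w
  simp only [blockTry, Prog.accept, Finset.univ_unique, Finset.sum_singleton]
  rw [rs_apply ρ (fun y => f (b, y)), iter_accept, Nat.zero_add,
    meas_accept b next f v hv _ _ (amp_norm _ _), sum_amp_sq]
  congr 2
  push_cast
  field_simp

theorem attempt_accept (t : ℕ) (next : SProg L K w) (f : Fin L × Fin K → Bool)
    (v : ℝ) (hv : ∀ ρ, next.accept f ρ = ρ.trace.re * v) (ρ : Mem (Fin K × Fin w)) :
    (attempt t next).accept f ρ = ρ.trace.re *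
      (succP L K t f + (1 - succP L K t f) * v) := by
  have hL : (L : ℝ) ≠ 0 := by exact_mod_cast NeZero.ne L
  rw [attempt, coin_accept L _ f _ (fun b ρ => blockTry_accept t next b f v hv ρ)]
  congr 1
  rw [succP, Finset.sum_add_distrib, ← Finset.sum_mul, Finset.sum_sub_distrib, Finset.sum_const,
    Finset.card_univ, Fintype.card_fin, nsmul_eq_mul, mul_one]
  field_simp

/-- one round: a direct attempt and an attempt with a random number of iterations -/
noncomputable def round (m : ℕ) (next : SProg L K w) : SProg L K w :=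
  attempt 0 (coin m fun t : Fin m => attempt t.1 next)

theorem round_accept (m : ℕ) [NeZero m] (next : SProg L K w) (f : Fin L × Fin K → Bool)
    (v : ℝ) (hv : ∀ ρ, next.accept f ρ = ρ.trace.re * v) (ρ : Mem (Fin K × Fin w)) :
    (round m next).accept f ρ = ρ.trace.re *
      (1 - (1 - succP L K 0 f) * (1 - avgP L K m f) * (1 - v)) := by
  have hm : (m : ℝ) ≠ 0 := by exact_mod_cast NeZero.ne m
  have h1 : ∀ ρ, (coin m fun t : Fin m => attempt t.1 next).accept f ρ = ρ.trace.re *
      (avgP L K m f + (1 - avgP L K m f) * v) := by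
    intro ρ
    rw [coin_accept m _ f _ (fun o ρ => attempt_accept o.1 next f v hv ρ)]
    congr 1
    rw [avgP, Fin.sum_univ_eq_sum_range (fun t => succP L K t f + (1 - succP L K t f) * v) m,
      Finset.sum_add_distrib, ← Finset.sum_mul, Finset.sum_sub_distrib, Finset.sum_const,
      Finset.card_range, nsmul_eq_mul, mul_one]
    field_simp
  rw [round, attempt_accept 0 _ f _ h1]
  ring

/-- the search program with `n` rounds -/
noncomputable def search (L K w : ℕ) : ℕ → SProg L K w
  | 0 => .answer false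
  | n + 1 => round (Nat.sqrt K + 1) (search L K w n)

theorem search_accept (n : ℕ) (f : Fin L × Fin K → Bool) (ρ : Mem (Fin K × Fin w)) :
    (search L K w n).accept f ρ = ρ.trace.re *
      (1 - ((1 - succP L K 0 f) * (1 - avgP L K (Nat.sqrt K + 1) f)) ^ n) := by
  induction n generalizing ρ with
  | zero => simp [search, Prog.accept]
  | succ n ih => rw [search, round_accept _ _ f _ ih]; ring

/-! ### Resources -/

theorem uses_mono {P : SProg L K w} {c q c' q' : ℕ}
    (h : P.Uses c q) (hc : c ≤ c') (hq : q ≤ q') : P.Uses c' q' := by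
  induction P generalizing c q c' q' with
  | answer a => trivial
  | query x next ih =>
    obtain ⟨d, hd, hn⟩ := h
    exact ⟨d, hd.trans hc, fun b => ih b (hn b) le_rfl hq⟩
  | qquery addr next ih =>
    obtain ⟨d, hd, hn⟩ := h
    exact ⟨d, hd.trans hq, ih hn hc le_rfl⟩
  | op m r A next ih => exact fun o => ih o (h o) hc hq

theorem iter_uses {b : Fin L} {P : SProg L K w} {c q t : ℕ} (h : P.Uses c q) :
    (iter w b P t).Uses c (q + t) := by
  induction t with
  | zero => exact h
  | succ t ih => exact ⟨q + t, le_refl _, fun _ => ih⟩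

theorem attempt_uses {t : ℕ} {next : SProg L K w} {c q : ℕ}
    (h : next.Uses c q) : (attempt t next).Uses (c + 1) (q + t) := by
  intro b o
  apply iter_uses
  intro k
  refine ⟨c, le_refl _, fun a => ?_⟩
  cases a
  · simpa using h
  · simp [Prog.Uses]

theorem search_uses (n : ℕ) : (search L K w n).Uses (2 * n) (n * Nat.sqrt K) := by
  induction n with
  | zero => trivial
  | succ n ih =>
    have h1 : (coin (Nat.sqrt K + 1) fun t : Fin (Nat.sqrt K + 1) =>
        attempt t.1 (search L K w n)).Uses (2 * n + 1) (n * Nat.sqrt K + Nat.sqrt K) := by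
      intro o
      refine uses_mono (attempt_uses ih) le_rfl ?_
      have : (o : Fin (Nat.sqrt K + 1)).1 ≤ Nat.sqrt K := Nat.lt_succ_iff.1 o.2
      exact Nat.add_le_add_left this _
    have h2 := attempt_uses (t := 0) h1
    refine uses_mono h2 ?_ ?_
    · ring_nf; exact le_refl _
    · rw [Nat.succ_mul]; exact le_refl _

/-! ### Validity -/

theorem coin_valid {m : ℕ} [NeZero m] {next : Fin m → SProg L K w} (h : ∀ o, (next o).Valid) :
    (coin m next).Valid := by
  refine ⟨?_, h⟩
  have hm : (m : ℝ) ≠ 0 := by exact_mod_cast NeZero.ne m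
  simp only [Finset.univ_unique, Finset.sum_singleton, Matrix.conjTranspose_smul,
    Matrix.conjTranspose_one, Complex.star_def, Complex.conj_ofReal, Matrix.smul_mul,
    Matrix.one_mul, smul_smul]
  rw [Finset.sum_const, Finset.card_univ, Fintype.card_fin, ← Complex.ofReal_mul, ← mul_inv,
    Real.mul_self_sqrt (Nat.cast_nonneg m), ← Nat.cast_smul_eq_nsmul ℂ, smul_smul]
  have : (m : ℂ) * (((m : ℝ)⁻¹ : ℝ) : ℂ) = 1 := by
    push_cast
    exact mul_inv_cancel₀ (by exact_mod_cast NeZero.ne m)
  rw [this, one_smul]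

theorem iter_valid {b : Fin L} {P : SProg L K w} {t : ℕ} (h : P.Valid) :
    (iter w b P t).Valid := by
  induction t with
  | zero => exact h
  | succ t ih =>
    refine ⟨?_, fun _ => ih⟩
    simp only [Finset.univ_unique, Finset.sum_singleton]
    rw [Matrix.conjTranspose_kronecker, diff_conj, Matrix.conjTranspose_one,
      ← Matrix.mul_kronecker_mul, diff_mul_self, Matrix.mul_one, Matrix.one_kronecker_one]

theorem meas_valid {b : Fin L} {P : SProg L K w} (h : P.Valid) : (meas w b P).Valid := by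
  refine ⟨?_, fun k a => ?_⟩
  · simp only [Finset.univ_unique, Finset.sum_singleton, mk_conj, mk_mul_self]
    ext ⟨i, z⟩ ⟨j, z'⟩
    rw [Matrix.sum_apply]
    simp only [mk, Matrix.kroneckerMap_apply, Matrix.diagonal_apply, Matrix.one_apply,
      Prod.mk.injEq]
    by_cases h1 : i = j
    · subst h1
      by_cases h2 : z = z'
      · simp [h2]
      · simp [h2]
    · simp [h1]
  · cases a
    · simpa using h
    · simp [Prog.Valid]

theorem attempt_valid {t : ℕ} {next : SProg L K w} (h : next.Valid) :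
    (attempt t next).Valid := by
  apply coin_valid
  intro b
  refine ⟨?_, fun _ => iter_valid (meas_valid h)⟩
  simp only [Finset.univ_unique, Finset.sum_singleton]
  exact rs_tp

theorem search_valid (n : ℕ) : (search L K w n).Valid := by
  induction n with
  | zero => trivial
  | succ n ih =>
    apply attempt_valid
    apply coin_valid
    intro o
    exact attempt_valid ih

/-! ### Purity -/

theorem one_sub_rk_pos (ψ : Fin K → ℝ) (h : ∑ y, ψ y ^ 2 = 1) :
    ((1 : Mem (Fin K × Fin w)) - rk ψ ⊗ₖ (1 : Matrix (Fin w) (Fin w) ℂ)).PosSemidef := by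
  set Q : Mem (Fin K × Fin w) := rk ψ ⊗ₖ (1 : Matrix (Fin w) (Fin w) ℂ) with hQ
  have hQh : Qᴴ = Q := by
    rw [hQ, Matrix.conjTranspose_kronecker, rk_conj, Matrix.conjTranspose_one]
  have hQ2 : Q * Q = Q := by
    rw [hQ, ← Matrix.mul_kronecker_mul, rk_mul_self ψ h, Matrix.mul_one]
  have := Matrix.posSemidef_conjTranspose_mul_self (1 - Q)
  rw [Matrix.conjTranspose_sub, hQh, Matrix.conjTranspose_one] at this
  have h : (1 - Q) * (1 - Q) = 1 - Q := by
    simp only [Matrix.sub_mul, Matrix.mul_sub, hQ2, Matrix.one_mul, Matrix.mul_one]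
    simp
  rwa [h] at this

theorem st_pos (τ : ℝ) (hτ : 0 ≤ τ) (ψ : Fin K → ℝ) : (st w ((τ : ℝ) : ℂ) ψ).PosSemidef := by
  rw [st]
  refine Matrix.PosSemidef.smul ?_ (by exact_mod_cast hτ)
  exact (Matrix.posSemidef_vecMulVec_self_star _).kronecker Matrix.PosSemidef.one

theorem iter_purity {b : Fin L} {P : SProg L K w} {f : Fin L × Fin K → Bool}
    (hP : ∀ ρ : Mem (Fin K × Fin w), ρ.PosSemidef → P.PurityLE K f ρ) (τ : ℝ) (hτ : 0 ≤ τ)
    (t s : ℕ) :
    (iter w b P t).PurityLE K f (st w ((τ : ℝ) : ℂ) (amp (fun y => f (b, y)) s)) := by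
  induction t generalizing s with
  | zero => exact hP _ (st_pos τ hτ _)
  | succ t ih =>
    refine ⟨?_, fun _ => ?_⟩
    · rw [addressed_addrB, st_trace, amp_norm]
      have e : ((((K : ℝ) * (((τ : ℝ) : ℂ) * (((1 : ℝ) : ℂ) * (w : ℂ))).re : ℝ)) : ℂ) •
          (1 : Mem (Fin K × Fin w)) - ((((K * w : ℕ) : ℝ)) : ℂ) •
            st w ((τ : ℝ) : ℂ) (amp (fun y => f (b, y)) s) =
          ((((K : ℝ) * w * τ : ℝ)) : ℂ) • ((1 : Mem (Fin K × Fin w)) -
            rk (amp (fun y => f (b, y)) s) ⊗ₖ (1 : Matrix (Fin w) (Fin w) ℂ)) := by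
        have h1 : (((τ : ℝ) : ℂ) * (((1 : ℝ) : ℂ) * (w : ℂ))).re = τ * w := by
          rw [Complex.ofReal_one, one_mul, Complex.re_ofReal_mul, Complex.natCast_re]
        rw [h1, st, smul_smul, smul_sub]
        congr 1
        · congr 1
          push_cast; ring
        · congr 1
          push_cast; ring
      rw [e]
      refine (one_sub_rk_pos _ (amp_norm _ _)).smul ?_
      have : (0 : ℝ) ≤ (K : ℝ) * w * τ := by positivity
      exact_mod_cast this
    · simp only [Finset.univ_unique, Finset.sum_singleton]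
      rw [grover_step]
      exact ih (s + 1)

theorem meas_purity {b : Fin L} {P : SProg L K w} {f : Fin L × Fin K → Bool}
    (hP : ∀ ρ : Mem (Fin K × Fin w), ρ.PosSemidef → P.PurityLE K f ρ)
    (ρ : Mem (Fin K × Fin w)) (hρ : ρ.PosSemidef) : (meas w b P).PurityLE K f ρ := by
  intro k
  have hpos : (∑ _i : Fin 1, mk w k * ρ * (mk w k)ᴴ).PosSemidef :=
    Matrix.posSemidef_sum _ fun i _ => hρ.mul_mul_conjTranspose_same _
  by_cases h : f (b, k) = true
  · simp [Prog.PurityLE, h]
  · have h' : f (b, k) = false := by simpa using h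
    simp only [Prog.PurityLE, h']
    exact hP _ hpos

theorem coin_purity {m : ℕ} {next : Fin m → SProg L K w} {f : Fin L × Fin K → Bool}
    (hP : ∀ o, ∀ ρ : Mem (Fin K × Fin w), ρ.PosSemidef → (next o).PurityLE K f ρ)
    (ρ : Mem (Fin K × Fin w)) (hρ : ρ.PosSemidef) : (coin m next).PurityLE K f ρ := by
  intro o
  exact hP o _ (Matrix.posSemidef_sum _ fun i _ => hρ.mul_mul_conjTranspose_same _)

theorem attempt_purity {t : ℕ} {next : SProg L K w} {f : Fin L × Fin K → Bool}
    (hP : ∀ ρ : Mem (Fin K × Fin w), ρ.PosSemidef → next.PurityLE K f ρ)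
    (ρ : Mem (Fin K × Fin w)) (hρ : ρ.PosSemidef) : (attempt t next).PurityLE K f ρ := by
  refine coin_purity (fun b ρ hρ => ?_) ρ hρ
  intro _
  have htr := trace_re_nonneg hρ
  have him : ρ.trace.im = 0 := (Complex.le_def.1 hρ.trace_nonneg).2.symm
  have hre : ρ.trace = ((ρ.trace.re : ℝ) : ℂ) := Complex.ext (by simp) (by simp [him])
  rw [rs_apply ρ (fun y => f (b, y)), hre, ← Complex.ofReal_mul]
  exact iter_purity (fun ρ hρ => meas_purity hP ρ hρ) _ (by positivity) _ _

theorem search_purity (n : ℕ) (f : Fin L × Fin K → Bool) (ρ : Mem (Fin K × Fin w))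
    (hρ : ρ.PosSemidef) : (search L K w n).PurityLE K f ρ := by
  induction n generalizing ρ with
  | zero => trivial
  | succ n ih =>
    refine attempt_purity (fun ρ hρ => ?_) ρ hρ
    refine coin_purity (fun o ρ hρ => ?_) ρ hρ
    exact attempt_purity ih ρ hρ

/-! ### Success -/

theorem search_none (n : ℕ) (ρ : Mem (Fin K × Fin w)) :
    (search L K w n).accept (fun _ => false) ρ = 0 := by
  rw [search_accept]
  have h2 : avgP L K (Nat.sqrt K + 1) (fun _ => false) = 0 := by
    simp only [avgP, succP_zero, Finset.sum_const_zero, mul_zero]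
  rw [succP_zero, h2]
  norm_num

theorem search_some (f : Fin L × Fin K → Bool) (hf : ∃ x, f x = true)
    (ρ : Mem (Fin K × Fin w)) (hρ : 0 ≤ ρ.trace.re) :
    2 / 3 * ρ.trace.re ≤ (search L K w (5 * L)).accept f ρ := by
  have hL : (0 : ℝ) < L := by exact_mod_cast Nat.pos_of_ne_zero (NeZero.ne L)
  have hL1 : (1 : ℝ) ≤ L := by exact_mod_cast Nat.one_le_iff_ne_zero.2 (NeZero.ne L)
  rw [search_accept]
  have h1 := round_ge f hf
  have h0 : 0 ≤ (1 - succP L K 0 f) * (1 - avgP L K (Nat.sqrt K + 1) f) :=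
    mul_nonneg (sub_nonneg.2 (succP_le_one 0 f)) (sub_nonneg.2 (avgP_le_one _ f))
  have h2 : ((1 - succP L K 0 f) * (1 - avgP L K (Nat.sqrt K + 1) f)) ^ (5 * L) ≤
      Real.exp (-(4 * L : ℝ)⁻¹) ^ (5 * L) := by
    apply pow_le_pow_left₀ h0
    refine h1.trans ?_
    have := Real.add_one_le_exp (-(4 * L : ℝ)⁻¹)
    linarith
  have h3 : Real.exp (-(4 * L : ℝ)⁻¹) ^ (5 * L) = Real.exp (-(5 / 4)) := by
    rw [← Real.exp_nat_mul]
    congr 1
    push_cast
    field_simp
  have h4 : Real.exp (-(5 / 4)) ≤ 1 / 3 := by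
    rw [Real.exp_neg, inv_le_comm₀ (Real.exp_pos _) (by norm_num)]
    have e1 : Real.exp (5 / 4) = Real.exp 1 * Real.exp (1 / 4) := by
      rw [← Real.exp_add]; norm_num
    have e2 := Real.add_one_le_exp (1 / 4 : ℝ)
    have e3 := Real.exp_one_gt_d9
    rw [e1]
    nlinarith [Real.exp_pos (1 : ℝ)]
  have h5 := h2.trans (h3 ▸ h4)
  nlinarith

end Pool.Agent.H18.Pur
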