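import Pool.Agent.H18.Pur.Lower
import Pool.Agent.H18.Clean.Proto

/-!
# Tightness: Grover search in random blocks
-/

set_option linter.unusedSectionVars false

namespace Pool.Agent.H18.Pur

open Matrix
open Pool.Agent.H18.Clean (amp cnt ang sum_amp_sq)
open scoped ComplexOrder MatrixOrder Kronecker

variable {L K w : ℕ} [NeZero L] [NeZero K] [NeZero w]

/-- a real vector as a complex vector -/
def cv {K : ℕ} (ψ : Fin K → ℝ) : Fin K → ℂ := fun y => ((ψ y : ℝ) : ℂ)

/-- rank one operator -/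
def rk {K : ℕ} (ψ : Fin K → ℝ) : Matrix (Fin K) (Fin K) ℂ := vecMulVec (cv ψ) (star (cv ψ))

/-- the state `τ |ψ⟩⟨ψ| ⊗ 1` -/
noncomputable def st (w : ℕ) {K : ℕ} (τ : ℂ) (ψ : Fin K → ℝ) : Mem (Fin K × Fin w) :=
  τ • (rk ψ ⊗ₖ (1 : Matrix (Fin w) (Fin w) ℂ))

theorem rk_apply (ψ : Fin K → ℝ) (i j : Fin K) : rk ψ i j = ((ψ i * ψ j : ℝ) : ℂ) := by
  simp [rk, cv, vecMulVec_apply]

theorem rk_conj (ψ : Fin K → ℝ) : (rk ψ)ᴴ = rk ψ := by
  rw [rk, Matrix.conjTranspose_vecMulVec, star_star]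

theorem rk_mul_self (ψ : Fin K → ℝ) (h : ∑ y, ψ y ^ 2 = 1) : rk ψ * rk ψ = rk ψ := by
  ext i j
  rw [Matrix.mul_apply]
  simp only [rk_apply]
  have e : ∀ x, ((ψ i * ψ x : ℝ) : ℂ) * ((ψ x * ψ j : ℝ) : ℂ) =
      ((ψ x ^ 2 * (ψ i * ψ j) : ℝ) : ℂ) := by
    intro x; push_cast; ring
  rw [Finset.sum_congr rfl (fun x _ => e x), ← Complex.ofReal_sum, ← Finset.sum_mul, h, one_mul]

theorem rk_trace (ψ : Fin K → ℝ) : (rk ψ).trace = ((∑ y, ψ y ^ 2 : ℝ) : ℂ) := by
  rw [Matrix.trace, Complex.ofReal_sum]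
  refine Finset.sum_congr rfl fun y _ => ?_
  rw [Matrix.diag_apply, rk_apply, pow_two]

theorem st_trace (τ : ℂ) (ψ : Fin K → ℝ) :
    (st w τ ψ).trace = τ * (((∑ y, ψ y ^ 2 : ℝ) : ℂ) * w) := by
  rw [st, Matrix.trace_smul, Matrix.trace_kronecker, rk_trace, Matrix.trace_one,
    Fintype.card_fin, smul_eq_mul]

theorem conj_st (U : Matrix (Fin K) (Fin K) ℂ) (τ : ℂ) (ψ φ : Fin K → ℝ)
    (h : U *ᵥ cv ψ = cv φ) :
    (U ⊗ₖ (1 : Matrix (Fin w) (Fin w) ℂ)) * st w τ ψ * (U ⊗ₖ (1 : Matrix (Fin w) (Fin w) ℂ))ᴴ =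
      st w τ φ := by
  rw [st, st, Matrix.conjTranspose_kronecker, Matrix.mul_smul, Matrix.smul_mul,
    ← Matrix.mul_kronecker_mul, ← Matrix.mul_kronecker_mul, Matrix.conjTranspose_one,
    Matrix.mul_one, Matrix.mul_one, rk, Matrix.mul_vecMulVec, Matrix.vecMulVec_mul, h, rk, ← h,
    Matrix.star_mulVec]

/-- the address map of block `b` -/
def addrB (w : ℕ) (b : Fin L) : Fin K × Fin w → Option (Fin L × Fin K) := fun s => some (b, s.1)

theorem phase_addrB (b : Fin L) (f : Fin L × Fin K → Bool) :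
    phase (addrB w b) f =
      (Matrix.diagonal fun y : Fin K => if f (b, y) then (-1 : ℂ) else 1) ⊗ₖ
        (1 : Matrix (Fin w) (Fin w) ℂ) := by
  ext ⟨i, z⟩ ⟨j, z'⟩
  simp only [phase, addrB, Matrix.diagonal_apply, Matrix.kroneckerMap_apply, Matrix.one_apply,
    Prod.mk.injEq]
  by_cases h1 : i = j <;> by_cases h2 : z = z' <;> simp [h1, h2]

theorem addressed_addrB (b : Fin L) :
    addressed (addrB w b : Fin K × Fin w → Option (Fin L × Fin K)) = K * w := by
  simp [addressed, addrB]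

/-- the average operator -/
noncomputable def avg (K : ℕ) : Matrix (Fin K) (Fin K) ℂ :=
  Matrix.of fun _ _ => (((K : ℝ)⁻¹ : ℝ) : ℂ)

/-- the diffusion operator -/
noncomputable def diff (K : ℕ) : Matrix (Fin K) (Fin K) ℂ := (2 : ℂ) • avg K - 1

theorem avg_conj : (avg K)ᴴ = avg K := by
  ext i j
  simp [avg]

theorem avg_mul_self : avg K * avg K = avg K := by
  have hK : (K : ℂ) ≠ 0 := by exact_mod_cast NeZero.ne K
  ext i j
  rw [Matrix.mul_apply]
  simp only [avg, Matrix.of_apply, Finset.sum_const, Finset.card_univ, Fintype.card_fin,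
    nsmul_eq_mul]
  push_cast
  field_simp

theorem diff_conj : (diff K)ᴴ = diff K := by
  rw [diff, Matrix.conjTranspose_sub, Matrix.conjTranspose_smul, avg_conj]
  simp

theorem diff_mul_self : diff K * diff K = 1 := by
  rw [diff]
  simp only [Matrix.sub_mul, Matrix.mul_sub, Matrix.one_mul, Matrix.mul_one, Matrix.smul_mul,
    Matrix.mul_smul, avg_mul_self]
  module

theorem avg_mulVec (ψ : Fin K → ℝ) : avg K *ᵥ cv ψ = cv (fun _ => (K : ℝ)⁻¹ * ∑ y, ψ y) := by
  ext i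
  simp only [Matrix.mulVec, dotProduct, avg, Matrix.of_apply, cv]
  rw [← Finset.mul_sum]
  push_cast
  rfl

theorem diff_mulVec (ψ : Fin K → ℝ) :
    diff K *ᵥ cv ψ = cv (fun y => 2 * ((K : ℝ)⁻¹ * ∑ y, ψ y) - ψ y) := by
  rw [diff, Matrix.sub_mulVec, Matrix.smul_mulVec, avg_mulVec, Matrix.one_mulVec]
  ext i
  simp [cv]

theorem diag_mulVec (g : Fin K → Bool) (ψ : Fin K → ℝ) :
    (Matrix.diagonal fun y : Fin K => if g y then (-1 : ℂ) else 1) *ᵥ cv ψ =
      cv (fun y => (if g y then -1 else 1) * ψ y) := by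
  ext i
  rw [Matrix.mulVec_diagonal]
  simp only [cv]
  split_ifs <;> simp

/-- one Grover iteration on the state -/
theorem grover_step (b : Fin L) (f : Fin L × Fin K → Bool) (τ : ℂ) (s : ℕ) :
    (diff K ⊗ₖ (1 : Matrix (Fin w) (Fin w) ℂ)) *
      (phase (addrB w b) f * st w τ (amp (fun y => f (b, y)) s) * (phase (addrB w b) f)ᴴ) *
      (diff K ⊗ₖ (1 : Matrix (Fin w) (Fin w) ℂ))ᴴ = st w τ (amp (fun y => f (b, y)) (s + 1)) := by
  rw [phase_addrB, conj_st _ _ _ _ (diag_mulVec (fun y => f (b, y)) _),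
    conj_st _ _ _ _ (diff_mulVec _)]
  rfl

theorem amp_norm (g : Fin K → Bool) (t : ℕ) : ∑ y, amp g t y ^ 2 = 1 := by
  have hK : (0 : ℝ) < K := by exact_mod_cast Nat.pos_of_ne_zero (NeZero.ne K)
  induction t with
  | zero =>
    simp only [amp, inv_pow, Real.sq_sqrt hK.le, Finset.sum_const, Finset.card_univ,
      Fintype.card_fin, nsmul_eq_mul]
    field_simp
  | succ t ih =>
    set a : Fin K → ℝ := fun y => (if g y then -1 else 1) * amp g t y with ha
    set m : ℝ := (K : ℝ)⁻¹ * ∑ z, a z with hm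
    have h1 : ∀ y, amp g (t + 1) y ^ 2 = 4 * m ^ 2 - 4 * m * a y + amp g t y ^ 2 := by
      intro y
      have : amp g (t + 1) y = 2 * m - a y := rfl
      rw [this]
      have h2 : a y ^ 2 = amp g t y ^ 2 := by
        simp only [ha]
        split_ifs <;> ring
      rw [← h2]; ring
    have h3 : ∑ z, a z = K * m := by rw [hm]; field_simp
    have h4 : ∑ z, 4 * m * a z = 4 * m * (K * m) := by rw [← Finset.mul_sum, h3]
    rw [Finset.sum_congr rfl (fun y _ => h1 y), Finset.sum_add_distrib, Finset.sum_sub_distrib,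
      ih, h4, Finset.sum_const, Finset.card_univ, Fintype.card_fin,
      nsmul_eq_mul]
    ring

/-- `t` Grover iterations in block `b`, then `P` -/
noncomputable def iter (w : ℕ) (b : Fin L) (P : Prog (Fin L × Fin K) (Fin K × Fin w)) :
    ℕ → Prog (Fin L × Fin K) (Fin K × Fin w)
  | 0 => P
  | t + 1 => .qquery (addrB w b) (.op 1 1
      (fun _ _ => diff K ⊗ₖ (1 : Matrix (Fin w) (Fin w) ℂ)) fun _ => iter w b P t)

theorem iter_accept (b : Fin L) (P : Prog (Fin L × Fin K) (Fin K × Fin w))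
    (f : Fin L × Fin K → Bool) (τ : ℂ) (t s : ℕ) :
    (iter w b P t).accept f (st w τ (amp (fun y => f (b, y)) s)) =
      P.accept f (st w τ (amp (fun y => f (b, y)) (s + t))) := by
  induction t generalizing s with
  | zero => rfl
  | succ t ih =>
    simp only [iter, Prog.accept, Finset.univ_unique, Finset.sum_singleton]
    rw [grover_step, ih]
    congr 3
    omega

/-- the projector of the measurement outcome `k` -/
def mk (w : ℕ) {K : ℕ} (k : Fin K) : Mem (Fin K × Fin w) :=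
  Matrix.diagonal (fun y : Fin K => if y = k then (1 : ℂ) else 0) ⊗ₖ
    (1 : Matrix (Fin w) (Fin w) ℂ)

/-- measure the address and check it classically -/
noncomputable def meas (w : ℕ) (b : Fin L) (P : Prog (Fin L × Fin K) (Fin K × Fin w)) :
    Prog (Fin L × Fin K) (Fin K × Fin w) :=
  .op K 1 (fun k _ => mk w k) fun k => .query (b, k) fun a => if a = true then .answer true else P

theorem mk_conj (k : Fin K) : (mk w k)ᴴ = mk w k := by
  rw [mk, Matrix.conjTranspose_kronecker, Matrix.diagonal_conjTranspose, Matrix.conjTranspose_one]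
  congr 2
  funext y
  simp only [Pi.star_apply]
  split_ifs <;> simp

theorem mk_mul_self (k : Fin K) : mk w k * mk w k = mk w k := by
  rw [mk, ← Matrix.mul_kronecker_mul, Matrix.diagonal_mul_diagonal, Matrix.mul_one]
  congr 2
  funext y
  split_ifs <;> simp

theorem mk_trace_st (k : Fin K) (τ : ℂ) (ψ : Fin K → ℝ) :
    (mk w k * st w τ ψ * (mk w k)ᴴ).trace = τ * (((ψ k ^ 2 : ℝ) : ℂ) * w) := by
  rw [Matrix.trace_mul_comm, ← Matrix.mul_assoc, mk_conj, mk_mul_self, st, mk, Matrix.mul_smul,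
    Matrix.trace_smul, ← Matrix.mul_kronecker_mul, Matrix.trace_kronecker, Matrix.mul_one,
    Matrix.trace_one, Fintype.card_fin, smul_eq_mul]
  congr 2
  rw [Matrix.trace, Finset.sum_eq_single k]
  · rw [Matrix.diag_apply, Matrix.diagonal_mul, rk_apply, if_pos rfl, one_mul, pow_two]
  · intro j _ hj
    rw [Matrix.diag_apply, Matrix.diagonal_mul, if_neg hj, zero_mul]
  · simp

theorem meas_accept (b : Fin L) (P : Prog (Fin L × Fin K) (Fin K × Fin w))
    (f : Fin L × Fin K → Bool) (v : ℝ) (hP : ∀ ρ, P.accept f ρ = ρ.trace.re * v) (τ : ℂ)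
    (ψ : Fin K → ℝ) (hψ : ∑ y, ψ y ^ 2 = 1) :
    (meas w b P).accept f (st w τ ψ) = (τ * w).re *
      ((∑ y, if f (b, y) = true then ψ y ^ 2 else 0) +
        (1 - ∑ y, if f (b, y) = true then ψ y ^ 2 else 0) * v) := by
  have h1 : ∀ k : Fin K, (Prog.query (b, k) fun a =>
      if a = true then Prog.answer true else P).accept f (∑ _i : Fin 1, mk w k * st w τ ψ *
        (mk w k)ᴴ) = (τ * w).re * (ψ k ^ 2 * (if f (b, k) = true then 1 else v)) := by
    intro k
    simp only [Finset.univ_unique, Finset.sum_singleton, Prog.accept]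
    have ht : (mk w k * st w τ ψ * (mk w k)ᴴ).trace.re = (τ * w).re * ψ k ^ 2 := by
      rw [mk_trace_st]
      have : τ * (((ψ k ^ 2 : ℝ) : ℂ) * (w : ℂ)) = ((ψ k ^ 2 : ℝ) : ℂ) * (τ * w) := by ring
      rw [this, Complex.re_ofReal_mul]; ring
    by_cases h : f (b, k) = true
    · rw [if_pos h, if_pos h]
      simp only [Prog.accept, if_true, ht]; ring
    · rw [if_neg h, if_neg h, hP, ht]; ring
  simp only [meas, Prog.accept] at h1 ⊢
  rw [Finset.sum_congr rfl (fun k _ => h1 k), ← Finset.mul_sum]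
  congr 1
  have h2 : ∀ k, ψ k ^ 2 * (if f (b, k) = true then 1 else v) =
      (if f (b, k) = true then ψ k ^ 2 else 0) * (1 - v) + ψ k ^ 2 * v := by
    intro k
    split_ifs <;> ring
  rw [Finset.sum_congr rfl (fun k _ => h2 k), Finset.sum_add_distrib, ← Finset.sum_mul,
    ← Finset.sum_mul, hψ]
  ring

/-- the Kraus operators of the reset to `|u⟩⟨u| ⊗ 1 / w` -/
noncomputable def rs (w K : ℕ) (s : Fin K × Fin w) (z : Fin w) : Mem (Fin K × Fin w) :=
  Matrix.of fun i j => if j = s ∧ i.2 = z then (((√(K : ℝ))⁻¹ * (√(w : ℝ))⁻¹ : ℝ) : ℂ) else 0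

/-- the number of Kraus operators of the reset -/
abbrev rr (w K : ℕ) : ℕ := Fintype.card ((Fin K × Fin w) × Fin w)

/-- reset with `Fin`-indexed Kraus operators -/
noncomputable def rsF (w K : ℕ) (i : Fin (rr w K)) : Mem (Fin K × Fin w) :=
  rs w K ((Fintype.equivFin ((Fin K × Fin w) × Fin w)).symm i).1
    ((Fintype.equivFin ((Fin K × Fin w) × Fin w)).symm i).2

theorem sum_rsF (F : (Fin K × Fin w) → Fin w → Mem (Fin K × Fin w)) :
    ∑ i : Fin (rr w K), F ((Fintype.equivFin ((Fin K × Fin w) × Fin w)).symm i).1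
      ((Fintype.equivFin ((Fin K × Fin w) × Fin w)).symm i).2 = ∑ s, ∑ z, F s z := by
  rw [Equiv.sum_comp (Fintype.equivFin ((Fin K × Fin w) × Fin w)).symm
    (fun p : (Fin K × Fin w) × Fin w => F p.1 p.2), Fintype.sum_prod_type]

theorem rs_const : (((√(K : ℝ))⁻¹ * (√(w : ℝ))⁻¹ : ℝ) : ℂ) *
    (((√(K : ℝ))⁻¹ * (√(w : ℝ))⁻¹ : ℝ) : ℂ) = ((((K : ℝ)⁻¹ * (w : ℝ)⁻¹ : ℝ)) : ℂ) := by
  rw [← Complex.ofReal_mul]
  congr 1
  have hK : (0 : ℝ) ≤ K := Nat.cast_nonneg _
  have hw : (0 : ℝ) ≤ w := Nat.cast_nonneg _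
  calc (√(K : ℝ))⁻¹ * (√(w : ℝ))⁻¹ * ((√(K : ℝ))⁻¹ * (√(w : ℝ))⁻¹)
      = (√(K : ℝ) * √(K : ℝ))⁻¹ * (√(w : ℝ) * √(w : ℝ))⁻¹ := by
        rw [mul_inv, mul_inv]; ring
    _ = _ := by rw [Real.mul_self_sqrt hK, Real.mul_self_sqrt hw]

theorem rs_star : star ((((√(K : ℝ))⁻¹ * (√(w : ℝ))⁻¹ : ℝ)) : ℂ) =
    (((√(K : ℝ))⁻¹ * (√(w : ℝ))⁻¹ : ℝ) : ℂ) := by
  rw [Complex.star_def, Complex.conj_ofReal]

theorem rs_tp : ∑ i : Fin (rr w K), (rsF w K i)ᴴ * rsF w K i = 1 := by
  have hK : (K : ℝ) ≠ 0 := by exact_mod_cast NeZero.ne K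
  have hw : (w : ℝ) ≠ 0 := by exact_mod_cast NeZero.ne w
  have h := sum_rsF (fun s z => (rs w K s z)ᴴ * rs w K s z)
  simp only [rsF]
  rw [h]
  ext i j
  simp only [Matrix.sum_apply, Matrix.mul_apply, Matrix.conjTranspose_apply, rs, Matrix.of_apply]
  set c := ((((√(K : ℝ))⁻¹ * (√(w : ℝ))⁻¹ : ℝ)) : ℂ) with hc
  have h1 : ∀ (s : Fin K × Fin w) (z : Fin w) (l : Fin K × Fin w),
      star (if i = s ∧ l.2 = z then c else 0) * (if j = s ∧ l.2 = z then c else 0) =
      if s = i then (if i = j then (if z = l.2 then c * c else 0) else 0) else 0 := by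
    intro s z l
    by_cases a1 : s = i
    · subst a1
      by_cases a2 : s = j
      · subst a2
        by_cases a3 : z = l.2
        · simp [a3, hc]
        · have : ¬ l.2 = z := fun h => a3 h.symm
          simp [a3, this]
      · have : ¬ j = s := fun h => a2 h.symm
        simp [a2, this]
    · have : ¬ i = s := fun h => a1 h.symm
      simp [a1, this]
  simp only [h1]
  rw [Finset.sum_eq_single i]
  · simp only [if_true]
    by_cases a2 : i = j
    · subst a2
      simp only [if_true, Matrix.one_apply_eq]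
      rw [Finset.sum_comm]
      simp only [Finset.sum_ite_eq', Finset.mem_univ, if_true, Finset.sum_const,
        Finset.card_univ, Fintype.card_prod, Fintype.card_fin, nsmul_eq_mul]
      rw [hc, rs_const]
      have : (((K * w : ℕ) : ℂ)) = (((K : ℝ) * (w : ℝ) : ℝ) : ℂ) := by push_cast; ring
      rw [this, ← Complex.ofReal_mul]
      have : (K : ℝ) * (w : ℝ) * ((K : ℝ)⁻¹ * (w : ℝ)⁻¹) = 1 := by field_simp
      rw [this, Complex.ofReal_one]
    · simp [a2]
  · intro s _ hs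
    simp [hs]
  · simp

theorem rs_apply (ρ : Mem (Fin K × Fin w)) (g : Fin K → Bool) :
    ∑ i : Fin (rr w K), rsF w K i * ρ * (rsF w K i)ᴴ =
      st w (ρ.trace * (((w : ℝ)⁻¹ : ℝ) : ℂ)) (amp g 0) := by
  have h := sum_rsF (fun s z => rs w K s z * ρ * (rs w K s z)ᴴ)
  simp only [rsF]
  rw [h]
  ext i j
  simp only [Matrix.sum_apply]
  set c := ((((√(K : ℝ))⁻¹ * (√(w : ℝ))⁻¹ : ℝ)) : ℂ) with hc
  have h1 : ∀ (s : Fin K × Fin w) (z : Fin w), (rs w K s z * ρ * (rs w K s z)ᴴ) i j =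
      if z = i.2 then (if i.2 = j.2 then c * c * ρ s s else 0) else 0 := by
    intro s z
    rw [Matrix.mul_apply, Finset.sum_eq_single s]
    · rw [Matrix.mul_apply, Finset.sum_eq_single s]
      · simp only [rs, Matrix.of_apply, Matrix.conjTranspose_apply, true_and, ← hc]
        by_cases a1 : z = i.2
        · subst a1
          by_cases a2 : i.2 = j.2
          · simp only [a2, if_true]
            rw [hc, rs_star]; ring
          · have : ¬ j.2 = i.2 := fun h => a2 h.symm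
            simp [a2, this]
        · have : ¬ i.2 = z := fun h => a1 h.symm
          simp [a1, this]
      · intro l _ hl
        simp [rs, hl]
      · simp
    · intro l _ hl
      simp [rs, hl]
    · simp
  simp only [h1]
  simp only [Finset.sum_ite_eq', Finset.mem_univ, if_true]
  rw [st, Matrix.smul_apply, Matrix.kroneckerMap_apply, rk_apply, Matrix.one_apply]
  have hK : (0 : ℝ) ≤ K := Nat.cast_nonneg _
  have h2 : amp g 0 i.1 * amp g 0 j.1 = (K : ℝ)⁻¹ := by
    simp only [amp]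
    rw [← mul_inv, Real.mul_self_sqrt hK]
  rw [h2]
  by_cases a2 : i.2 = j.2
  · simp only [a2, if_true]
    rw [← Finset.mul_sum, hc, rs_const, smul_eq_mul]
    have : ∑ s, ρ s s = ρ.trace := rfl
    rw [this]
    push_cast
    ring
  · simp [a2]

end Pool.Agent.H18.Pur
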